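import Mathlib

/-!
# Equality of degrees is definable (without parameters) in the ring `ℂ[t]`

We prove that `{(f, g) : deg f = deg g}` is a `∅`-definable subset of `ℂ[t]²` in the language of
rings.  The idea: after adding suitable constants `f` and `g` become squarefree; two squarefree
polynomials `F`, `G` have the same number of roots iff there are `h`, `k` which are injective on the
roots of `F`, respectively of `G`, and take there the same set of values.
-/

namespace Pool.Agent.Results.MP_d395f7_lc.EqualDegree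

open FirstOrder FirstOrder.Language FirstOrder.Ring Polynomial

section Definability

variable {M : Type} [CommRing M] [CompatibleRing M]

/-- `Def P`: the predicate `P` on assignments is given by a formula of the language of rings. -/
def Def {α : Type} (P : (α → M) → Prop) : Prop :=
  ∃ φ : Language.ring.Formula α, ∀ v, φ.Realize v ↔ P v

/-- `DT t`: the function `t` on assignments is given by a term of the language of rings. -/
def DT {α : Type} (t : (α → M) → M) : Prop :=
  ∃ τ : Language.ring.Term α, ∀ v, τ.realize v = t v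

variable {α : Type}

theorem DT.var (a : α) : DT (fun v : α → M => v a) := ⟨Term.var a, fun _ => rfl⟩

theorem DT.zero : DT (fun _ : α → M => 0) := ⟨0, fun v => by simp⟩

theorem DT.one : DT (fun _ : α → M => 1) := ⟨1, fun v => by simp⟩

theorem DT.add {s t : (α → M) → M} (hs : DT s) (ht : DT t) : DT (fun v => s v + t v) := by
  obtain ⟨σ, hσ⟩ := hs
  obtain ⟨τ, hτ⟩ := ht
  exact ⟨σ + τ, fun v => by simp [hσ, hτ]⟩

theorem DT.mul {s t : (α → M) → M} (hs : DT s) (ht : DT t) : DT (fun v => s v * t v) := by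
  obtain ⟨σ, hσ⟩ := hs
  obtain ⟨τ, hτ⟩ := ht
  exact ⟨σ * τ, fun v => by simp [hσ, hτ]⟩

theorem DT.neg {s : (α → M) → M} (hs : DT s) : DT (fun v => - s v) := by
  obtain ⟨σ, hσ⟩ := hs
  exact ⟨-σ, fun v => by simp [hσ]⟩

theorem DT.sub {s t : (α → M) → M} (hs : DT s) (ht : DT t) : DT (fun v => s v - t v) := by
  simpa [sub_eq_add_neg] using hs.add ht.neg

theorem Def.eq {s t : (α → M) → M} (hs : DT s) (ht : DT t) : Def (fun v => s v = t v) := by
  obtain ⟨σ, hσ⟩ := hs
  obtain ⟨τ, hτ⟩ := ht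
  exact ⟨Term.equal σ τ, fun v => by simp [Formula.realize_equal, hσ, hτ]⟩

theorem Def.and {P Q : (α → M) → Prop} (hP : Def P) (hQ : Def Q) : Def (fun v => P v ∧ Q v) := by
  obtain ⟨φ, hφ⟩ := hP
  obtain ⟨ψ, hψ⟩ := hQ
  exact ⟨φ ⊓ ψ, fun v => by simp [Formula.realize_inf, hφ, hψ]⟩

theorem Def.not {P : (α → M) → Prop} (hP : Def P) : Def (fun v => ¬ P v) := by
  obtain ⟨φ, hφ⟩ := hP
  exact ⟨φ.not, fun v => by simp [Formula.realize_not, hφ]⟩

theorem Def.imp {P Q : (α → M) → Prop} (hP : Def P) (hQ : Def Q) : Def (fun v => P v → Q v) := by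
  obtain ⟨φ, hφ⟩ := hP
  obtain ⟨ψ, hψ⟩ := hQ
  exact ⟨φ.imp ψ, fun v => by simp [Formula.realize_imp, hφ, hψ]⟩

theorem Def.or {P Q : (α → M) → Prop} (hP : Def P) (hQ : Def Q) : Def (fun v => P v ∨ Q v) := by
  obtain ⟨φ, hφ⟩ := hP
  obtain ⟨ψ, hψ⟩ := hQ
  exact ⟨φ ⊔ ψ, fun v => by simp [Formula.realize_sup, hφ, hψ]⟩

theorem Def.iff {P Q : (α → M) → Prop} (hP : Def P) (hQ : Def Q) : Def (fun v => P v ↔ Q v) := by
  obtain ⟨φ, hφ⟩ := hP
  obtain ⟨ψ, hψ⟩ := hQ
  exact ⟨φ.iff ψ, fun v => by simp [Formula.realize_iff, hφ, hψ]⟩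

theorem Def.ex {Q : (α → M) → M → Prop}
    (h : Def (fun w : α ⊕ Unit → M => Q (fun a => w (Sum.inl a)) (w (Sum.inr ())))) :
    Def (fun v => ∃ x, Q v x) := by
  obtain ⟨φ, hφ⟩ := h
  refine ⟨φ.iExs Unit, fun v => ?_⟩
  rw [Formula.realize_iExs]
  constructor
  · rintro ⟨i, hi⟩
    exact ⟨i (), by simpa using (hφ _).1 hi⟩
  · rintro ⟨x, hx⟩
    exact ⟨fun _ => x, (hφ _).2 (by simpa using hx)⟩

theorem Def.all {Q : (α → M) → M → Prop}
    (h : Def (fun w : α ⊕ Unit → M => Q (fun a => w (Sum.inl a)) (w (Sum.inr ())))) :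
    Def (fun v => ∀ x, Q v x) := by
  have := (Def.ex (Q := fun v x => ¬ Q v x) h.not).not
  simpa using this

/-- A unary predicate given by a formula. -/
def Def1 (P : M → Prop) : Prop :=
  ∀ {β : Type} {t : (β → M) → M}, DT t → Def (fun v => P (t v))

theorem def1_of {P : M → Prop} (h : Def (fun v : Unit → M => P (v ()))) : Def1 P := by
  intro β t ⟨τ, hτ⟩
  obtain ⟨φ, hφ⟩ := h
  refine ⟨BoundedFormula.subst φ (fun _ => τ), fun v => ?_⟩
  rw [Formula.Realize, BoundedFormula.realize_subst]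
  have := hφ (fun _ => τ.realize v)
  rw [Formula.Realize] at this
  rw [this, hτ]

/-- A binary predicate given by a formula. -/
def Def2 (P : M → M → Prop) : Prop :=
  ∀ {β : Type} {s t : (β → M) → M}, DT s → DT t → Def (fun v => P (s v) (t v))

theorem def2_of {P : M → M → Prop} (h : Def (fun v : Bool → M => P (v true) (v false))) :
    Def2 P := by
  intro β s t ⟨σ, hσ⟩ ⟨τ, hτ⟩
  obtain ⟨φ, hφ⟩ := h
  refine ⟨BoundedFormula.subst φ (fun b => if b then σ else τ), fun v => ?_⟩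
  rw [Formula.Realize, BoundedFormula.realize_subst]
  have := hφ (fun b => (if b then σ else τ : Language.ring.Term β).realize v)
  rw [Formula.Realize] at this
  rw [this]
  simp [hσ, hτ]

theorem def_dvd : Def2 (fun a b : M => a ∣ b) :=
  def2_of (Def.ex (Q := fun v x => v false = v true * x)
    (Def.eq (DT.var _) (DT.mul (DT.var _) (DT.var _))))

theorem def_isUnit : Def1 (fun a : M => IsUnit a) := by
  intro β t ht
  simpa [isUnit_iff_dvd_one] using def_dvd ht DT.one

theorem def_squarefree : Def1 (fun a : M => Squarefree a) :=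
  def1_of (Def.all (Q := fun v x => x * x ∣ v () → IsUnit x)
    (Def.imp (def_dvd (DT.mul (DT.var _) (DT.var _)) (DT.var _)) (def_isUnit (DT.var _))))

theorem def_irreducible : Def1 (fun a : M => Irreducible a) := by
  apply def1_of
  have : Def (fun v : Unit → M => ¬ IsUnit (v ()) ∧
      ∀ a b : M, v () = a * b → IsUnit a ∨ IsUnit b) := by
    refine (def_isUnit (DT.var _)).not.and ?_
    refine Def.all (Q := fun v a => ∀ b : M, v () = a * b → IsUnit a ∨ IsUnit b) ?_
    refine Def.all (Q := fun (v : Unit ⊕ Unit → M) b =>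
      v (Sum.inl ()) = v (Sum.inr ()) * b → IsUnit (v (Sum.inr ())) ∨ IsUnit b) ?_
    exact (Def.eq (DT.var _) (DT.mul (DT.var _) (DT.var _))).imp
      ((def_isUnit (DT.var _)).or (def_isUnit (DT.var _)))
  obtain ⟨φ, hφ⟩ := this
  exact ⟨φ, fun v => (hφ v).trans ⟨fun h => ⟨h.1, fun {a b} => h.2 a b⟩,
    fun h => ⟨h.not_isUnit, fun _ _ hab => h.isUnit_or_isUnit hab⟩⟩⟩

/-- `0` or a unit. In `ℂ[t]` these are the constants. -/
def Cst (c : M) : Prop := c = 0 ∨ IsUnit c

/-- Some irreducible divisor of `F` divides `h - b`. -/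
def Val (F h b : M) : Prop := ∃ p, Irreducible p ∧ p ∣ F ∧ p ∣ h - b

/-- For constants `b`, two irreducible divisors of `F` and `h - b` are equal up to units. -/
def Inj (F h : M) : Prop :=
  ∀ b, Cst b → ∀ p, (Irreducible p ∧ p ∣ F ∧ p ∣ h - b) →
    ∀ q, (Irreducible q ∧ q ∣ F ∧ q ∣ h - b) → p ∣ q

/-- The condition which says that `F` and `G` have the same number of roots. -/
def Same (F G : M) : Prop :=
  ∃ h k, (Inj F h ∧ Inj G k) ∧ ∀ b, Cst b → (Val F h b ↔ Val G k b)

/-- The condition which says that `f` and `g` have the same degree. -/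
def EqDeg (f g : M) : Prop :=
  (f = 0 ∧ g = 0) ∨ ((¬ f = 0 ∧ ¬ g = 0) ∧ ∃ c d, (Cst c ∧ Cst d) ∧ (¬ f + c = 0 ∧ ¬ g + d = 0) ∧
    (Squarefree (f + c) ∧ Squarefree (g + d)) ∧ Same (f + c) (g + d))

theorem def_cst : Def1 (fun a : M => Cst a) :=
  fun ht => (Def.eq ht DT.zero).or (def_isUnit ht)

/-- A ternary predicate given by a formula. -/
def Def3 (P : M → M → M → Prop) : Prop :=
  ∀ {β : Type} {s t u : (β → M) → M}, DT s → DT t → DT u → Def (fun v => P (s v) (t v) (u v))

theorem def3_of {P : M → M → M → Prop} (h : Def (fun v : Fin 3 → M => P (v 0) (v 1) (v 2))) :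
    Def3 P := by
  intro β s t u ⟨σ, hσ⟩ ⟨τ, hτ⟩ ⟨ρ, hρ⟩
  obtain ⟨φ, hφ⟩ := h
  refine ⟨BoundedFormula.subst φ (![σ, τ, ρ]), fun v => ?_⟩
  rw [Formula.Realize, BoundedFormula.realize_subst]
  have := hφ (fun b => ((![σ, τ, ρ] : Fin 3 → Language.ring.Term β) b).realize v)
  rw [Formula.Realize] at this
  rw [this]
  simp [hσ, hτ, hρ]

theorem def_val : Def3 (fun F h b : M => Val F h b) := by
  apply def3_of
  refine Def.ex (Q := fun v p => Irreducible p ∧ p ∣ v 0 ∧ p ∣ v 1 - v 2) ?_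
  exact (def_irreducible (DT.var _)).and ((def_dvd (DT.var _) (DT.var _)).and
    (def_dvd (DT.var _) (DT.sub (DT.var _) (DT.var _))))

theorem def_inj : Def2 (fun F h : M => Inj F h) := by
  apply def2_of
  refine Def.all (Q := fun v b => Cst b → ∀ p, (Irreducible p ∧ p ∣ v true ∧ p ∣ v false - b) →
    ∀ q, (Irreducible q ∧ q ∣ v true ∧ q ∣ v false - b) → p ∣ q) ?_
  refine (def_cst (DT.var _)).imp ?_
  refine Def.all (Q := fun (v : Bool ⊕ Unit → M) p =>
    (Irreducible p ∧ p ∣ v (Sum.inl true) ∧ p ∣ v (Sum.inl false) - v (Sum.inr ())) →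
    ∀ q, (Irreducible q ∧ q ∣ v (Sum.inl true) ∧ q ∣ v (Sum.inl false) - v (Sum.inr ())) →
      p ∣ q) ?_
  refine Def.imp ((def_irreducible (DT.var _)).and ((def_dvd (DT.var _) (DT.var _)).and
    (def_dvd (DT.var _) (DT.sub (DT.var _) (DT.var _))))) ?_
  refine Def.all (Q := fun (v : (Bool ⊕ Unit) ⊕ Unit → M) q =>
    (Irreducible q ∧ q ∣ v (Sum.inl (Sum.inl true)) ∧
      q ∣ v (Sum.inl (Sum.inl false)) - v (Sum.inl (Sum.inr ()))) →
      v (Sum.inr ()) ∣ q) ?_
  exact Def.imp ((def_irreducible (DT.var _)).and ((def_dvd (DT.var _) (DT.var _)).and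
    (def_dvd (DT.var _) (DT.sub (DT.var _) (DT.var _))))) (def_dvd (DT.var _) (DT.var _))

theorem def_same : Def2 (fun F G : M => Same F G) := by
  apply def2_of
  refine Def.ex (Q := fun v h => ∃ k, (Inj (v true) h ∧ Inj (v false) k) ∧
    ∀ b, Cst b → (Val (v true) h b ↔ Val (v false) k b)) ?_
  refine Def.ex (Q := fun (v : Bool ⊕ Unit → M) k =>
    (Inj (v (Sum.inl true)) (v (Sum.inr ())) ∧ Inj (v (Sum.inl false)) k) ∧
    ∀ b, Cst b → (Val (v (Sum.inl true)) (v (Sum.inr ())) b ↔ Val (v (Sum.inl false)) k b)) ?_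
  refine Def.and ((def_inj (DT.var _) (DT.var _)).and (def_inj (DT.var _) (DT.var _))) ?_
  refine Def.all (Q := fun (v : (Bool ⊕ Unit) ⊕ Unit → M) b => Cst b →
    (Val (v (Sum.inl (Sum.inl true))) (v (Sum.inl (Sum.inr ()))) b ↔
      Val (v (Sum.inl (Sum.inl false))) (v (Sum.inr ())) b)) ?_
  exact (def_cst (DT.var _)).imp ((def_val (DT.var _) (DT.var _) (DT.var _)).iff
    (def_val (DT.var _) (DT.var _) (DT.var _)))

theorem def_eqDeg : Def2 (fun f g : M => EqDeg f g) := by
  apply def2_of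
  refine Def.or ((Def.eq (DT.var _) DT.zero).and (Def.eq (DT.var _) DT.zero)) ?_
  refine Def.and ((Def.eq (DT.var _) DT.zero).not.and (Def.eq (DT.var _) DT.zero).not) ?_
  refine Def.ex (Q := fun v c => ∃ d, (Cst c ∧ Cst d) ∧ (¬ v true + c = 0 ∧ ¬ v false + d = 0) ∧
    (Squarefree (v true + c) ∧ Squarefree (v false + d)) ∧ Same (v true + c) (v false + d)) ?_
  refine Def.ex (Q := fun (v : Bool ⊕ Unit → M) d => (Cst (v (Sum.inr ())) ∧ Cst d) ∧
    (¬ v (Sum.inl true) + v (Sum.inr ()) = 0 ∧ ¬ v (Sum.inl false) + d = 0) ∧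
    (Squarefree (v (Sum.inl true) + v (Sum.inr ())) ∧ Squarefree (v (Sum.inl false) + d)) ∧
    Same (v (Sum.inl true) + v (Sum.inr ())) (v (Sum.inl false) + d)) ?_
  refine Def.and ((def_cst (DT.var _)).and (def_cst (DT.var _))) ?_
  refine Def.and ((Def.eq ((DT.var _).add (DT.var _)) DT.zero).not.and
    (Def.eq ((DT.var _).add (DT.var _)) DT.zero).not) ?_
  refine Def.and ((def_squarefree ((DT.var _).add (DT.var _))).and
    (def_squarefree ((DT.var _).add (DT.var _)))) ?_
  exact def_same ((DT.var _).add (DT.var _)) ((DT.var _).add (DT.var _))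

end Definability

section Algebra

theorem cst_iff (c : ℂ[X]) : Cst c ↔ ∃ a, c = C a := by
  constructor
  · rintro (rfl | h)
    · exact ⟨0, by simp⟩
    · obtain ⟨a, -, ha⟩ := Polynomial.isUnit_iff.1 h
      exact ⟨a, ha.symm⟩
  · rintro ⟨a, rfl⟩
    by_cases ha : a = 0
    · left; simp [ha]
    · right; exact Polynomial.isUnit_C.2 (isUnit_iff_ne_zero.2 ha)

theorem irr_iff (p : ℂ[X]) : Irreducible p ↔ ∃ u z, u ≠ 0 ∧ p = C u * (X - C z) := by
  constructor
  · intro h
    have hd : p.degree = 1 := IsAlgClosed.degree_eq_one_of_irreducible ℂ h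
    obtain ⟨z, hz⟩ := IsAlgClosed.exists_root p (by rw [hd]; exact one_ne_zero)
    obtain ⟨q, hq⟩ := dvd_iff_isRoot.2 hz
    have hq0 : q ≠ 0 := by rintro rfl; simp at hq; exact h.ne_zero hq
    have hdq : q.degree = 0 := by
      have := congrArg degree hq
      rw [degree_mul, degree_X_sub_C, hd] at this
      rw [degree_eq_natDegree hq0] at this ⊢
      norm_cast at this ⊢
      omega
    rw [eq_C_of_degree_eq_zero hdq] at hq
    refine ⟨q.coeff 0, z, ?_, by rw [hq, mul_comm]⟩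
    intro h0
    apply hq0
    rw [eq_C_of_degree_eq_zero hdq, h0, C_0]
  · rintro ⟨u, z, hu, rfl⟩
    exact (irreducible_isUnit_mul (Polynomial.isUnit_C.2 (isUnit_iff_ne_zero.2 hu))).2
      (irreducible_X_sub_C z)

theorem irr_dvd_iff (u z : ℂ) (hu : u ≠ 0) (F : ℂ[X]) : C u * (X - C z) ∣ F ↔ F.eval z = 0 := by
  rw [IsUnit.mul_left_dvd (Polynomial.isUnit_C.2 (isUnit_iff_ne_zero.2 hu)), dvd_iff_isRoot,
    IsRoot.def]

theorem val_iff (F h : ℂ[X]) (b : ℂ) : Val F h (C b) ↔ ∃ z, F.eval z = 0 ∧ h.eval z = b := by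
  constructor
  · rintro ⟨p, hp, hpF, hph⟩
    obtain ⟨u, z, hu, rfl⟩ := (irr_iff p).1 hp
    rw [irr_dvd_iff _ _ hu] at hpF hph
    exact ⟨z, hpF, by simpa [sub_eq_zero] using hph⟩
  · rintro ⟨z, hz, hb⟩
    refine ⟨C 1 * (X - C z), (irr_iff _).2 ⟨1, z, one_ne_zero, rfl⟩, ?_, ?_⟩
    · rw [irr_dvd_iff _ _ one_ne_zero]; exact hz
    · rw [irr_dvd_iff _ _ one_ne_zero]; simp [hb]

theorem inj_iff (F h : ℂ[X]) : Inj F h ↔
    ∀ z w, F.eval z = 0 → F.eval w = 0 → h.eval z = h.eval w → z = w := by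
  constructor
  · intro H z w hz hw hzw
    have := H (C (h.eval z)) ((cst_iff _).2 ⟨_, rfl⟩) (C 1 * (X - C z))
      ⟨(irr_iff _).2 ⟨1, z, one_ne_zero, rfl⟩, (irr_dvd_iff _ _ one_ne_zero _).2 hz,
        (irr_dvd_iff _ _ one_ne_zero _).2 (by simp)⟩ (C 1 * (X - C w))
      ⟨(irr_iff _).2 ⟨1, w, one_ne_zero, rfl⟩, (irr_dvd_iff _ _ one_ne_zero _).2 hw,
        (irr_dvd_iff _ _ one_ne_zero _).2 (by simp [hzw])⟩
    rw [irr_dvd_iff _ _ one_ne_zero] at this
    simpa [sub_eq_zero] using this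
  · rintro H b hb p ⟨hp, hpF, hph⟩ q ⟨hq, hqF, hqh⟩
    obtain ⟨β, rfl⟩ := (cst_iff b).1 hb
    obtain ⟨u, z, hu, rfl⟩ := (irr_iff p).1 hp
    obtain ⟨v, w, hv, rfl⟩ := (irr_iff q).1 hq
    rw [irr_dvd_iff _ _ hu] at hpF hph ⊢
    rw [irr_dvd_iff _ _ hv] at hqF hqh
    have : z = w := by
      refine H z w hpF hqF ?_
      simp [sub_eq_zero] at hph hqh
      rw [hph, hqh]
    simp [this]

theorem same_iff (F G : ℂ[X]) (hF : F ≠ 0) (hG : G ≠ 0) :
    Same F G ↔ F.roots.toFinset.card = G.roots.toFinset.card := by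
  classical
  have hmF : ∀ z, z ∈ F.roots.toFinset ↔ F.eval z = 0 := by intro z; simp [hF]
  have hmG : ∀ z, z ∈ G.roots.toFinset ↔ G.eval z = 0 := by intro z; simp [hG]
  constructor
  · rintro ⟨h, k, ⟨hh, hk⟩, H⟩
    rw [inj_iff] at hh hk
    have h1 : (F.roots.toFinset.image (fun z => h.eval z)).card = F.roots.toFinset.card :=
      Finset.card_image_of_injOn (fun z hz w hw hzw => hh z w ((hmF z).1 hz) ((hmF w).1 hw) hzw)
    have h2 : (G.roots.toFinset.image (fun z => k.eval z)).card = G.roots.toFinset.card :=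
      Finset.card_image_of_injOn (fun z hz w hw hzw => hk z w ((hmG z).1 hz) ((hmG w).1 hw) hzw)
    rw [← h1, ← h2]
    congr 1
    ext b
    have := H (C b) ((cst_iff _).2 ⟨b, rfl⟩)
    rw [val_iff, val_iff] at this
    simp only [Finset.mem_image, hmF, hmG]
    exact this
  · intro hc
    obtain ⟨e⟩ : Nonempty (F.roots.toFinset ≃ G.roots.toFinset) :=
      ⟨Finset.equivOfCardEq hc⟩
    let r : ℂ → ℂ := fun z => if hz : z ∈ F.roots.toFinset then (e ⟨z, hz⟩ : ℂ) else 0
    have hr : ∀ z (hz : z ∈ F.roots.toFinset),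
        (Lagrange.interpolate F.roots.toFinset id r).eval z = (e ⟨z, hz⟩ : ℂ) := by
      intro z hz
      have := Lagrange.eval_interpolate_at_node (s := F.roots.toFinset) (v := id) r
        (Set.injOn_id _) hz
      simp only [id] at this
      rw [this]
      simp only [r, hz, dif_pos]
    refine ⟨Lagrange.interpolate F.roots.toFinset id r, X, ⟨?_, ?_⟩, ?_⟩
    · rw [inj_iff]
      intro z w hz hw hzw
      rw [hr z ((hmF z).2 hz), hr w ((hmF w).2 hw)] at hzw
      have := e.injective (Subtype.ext hzw)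
      simpa using this
    · rw [inj_iff]
      intro z w _ _ hzw
      simpa using hzw
    · intro b hb
      obtain ⟨β, rfl⟩ := (cst_iff b).1 hb
      rw [val_iff, val_iff]
      constructor
      · rintro ⟨z, hz, hz'⟩
        rw [hr z ((hmF z).2 hz)] at hz'
        refine ⟨β, ?_, by simp⟩
        rw [← hmG, ← hz']
        exact (e _).2
      · rintro ⟨w, hw, hw'⟩
        have hw'' : w = β := by simpa using hw'
        subst hw''
        refine ⟨(e.symm ⟨w, (hmG w).2 hw⟩ : F.roots.toFinset), ?_, ?_⟩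
        · rw [← hmF]; exact (e.symm _).2
        · rw [hr _ (e.symm _).2]; simp

theorem card_roots_toFinset (F : ℂ[X]) (hF : Squarefree F) :
    F.roots.toFinset.card = F.natDegree := by
  classical
  have hsep : F.Separable := PerfectField.separable_iff_squarefree.2 hF
  rw [Multiset.toFinset_card_of_nodup (nodup_roots hsep)]
  exact (IsAlgClosed.splits F).natDegree_eq_card_roots.symm

theorem exists_squarefree (f : ℂ[X]) (hf : f ≠ 0) :
    ∃ c : ℂ, f + C c ≠ 0 ∧ Squarefree (f + C c) := by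
  classical
  by_cases hd : derivative f = 0
  · refine ⟨0, by simpa using hf, ?_⟩
    have := derivative_eq_zero.1 hd
    rw [eq_C_of_natDegree_eq_zero this] at hf ⊢
    have h0 : f.coeff 0 ≠ 0 := by
      intro h; apply hf; simp [h]
    simp only [C_0, add_zero]
    exact (Polynomial.isUnit_C.2 (isUnit_iff_ne_zero.2 h0)).squarefree
  · obtain ⟨c, hc⟩ := Infinite.exists_notMem_finset
      ((derivative f).roots.toFinset.image (fun z => - f.eval z))
    have key : IsCoprime (f + C c) (derivative (f + C c)) := by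
      rw [derivative_add, derivative_C, add_zero]
      refine (isCoprime_of_irreducible_dvd ?_ ?_)
      · rintro ⟨-, h2⟩; exact hd h2
      · intro p hp hp1 hp2
        obtain ⟨u, z, hu, rfl⟩ := (irr_iff p).1 hp
        rw [irr_dvd_iff _ _ hu] at hp1 hp2
        apply hc
        rw [Finset.mem_image]
        refine ⟨z, by simpa [hd] using hp2, ?_⟩
        simp at hp1
        linear_combination -hp1
    refine ⟨c, ?_, Separable.squarefree key⟩
    intro h
    have h2 : derivative (f + C c) = 0 := by rw [h]; simp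
    rw [derivative_add, derivative_C, add_zero] at h2
    exact hd h2

theorem eqDeg_iff (f g : ℂ[X]) : EqDeg f g ↔ f.degree = g.degree := by
  by_cases hf : f = 0
  · subst hf
    constructor
    · rintro (⟨-, rfl⟩ | ⟨⟨h, -⟩, -⟩)
      · rfl
      · exact absurd rfl h
    · intro h
      rw [degree_zero] at h
      exact Or.inl ⟨rfl, degree_eq_bot.1 h.symm⟩
  by_cases hg : g = 0
  · subst hg
    constructor
    · rintro (⟨rfl, -⟩ | ⟨⟨-, h⟩, -⟩)
      · rfl
      · exact absurd rfl h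
    · intro h
      rw [degree_zero] at h
      exact Or.inl ⟨degree_eq_bot.1 h, rfl⟩
  rw [degree_eq_natDegree hf, degree_eq_natDegree hg]
  constructor
  · rintro (⟨h, -⟩ | ⟨-, c, d, ⟨hc, hd⟩, ⟨hfc, hgd⟩, ⟨h1, h2⟩, hS⟩)
    · exact absurd h hf
    · rw [same_iff _ _ hfc hgd, card_roots_toFinset _ h1, card_roots_toFinset _ h2] at hS
      obtain ⟨a, rfl⟩ := (cst_iff c).1 hc
      obtain ⟨b, rfl⟩ := (cst_iff d).1 hd
      rw [natDegree_add_C, natDegree_add_C] at hS
      rw [hS]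
  · intro h
    have h' : f.natDegree = g.natDegree := by exact_mod_cast h
    obtain ⟨a, ha, ha'⟩ := exists_squarefree f hf
    obtain ⟨b, hb, hb'⟩ := exists_squarefree g hg
    refine Or.inr ⟨⟨hf, hg⟩, C a, C b, ⟨(cst_iff _).2 ⟨a, rfl⟩, (cst_iff _).2 ⟨b, rfl⟩⟩,
      ⟨ha, hb⟩, ⟨ha', hb'⟩, ?_⟩
    rw [same_iff _ _ ha hb, card_roots_toFinset _ ha', card_roots_toFinset _ hb',
      natDegree_add_C, natDegree_add_C, h']

end Algebra

/-- The relation `deg f = deg g` on `ℂ[t]` (with `deg 0 = -∞`) is definable without parameters in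
the ring `ℂ[t]`. -/
theorem result :
    letI := compatibleRingOfRing ℂ[X]
    (∅ : Set ℂ[X]).Definable Language.ring {v : Fin 2 → ℂ[X] | (v 0).degree = (v 1).degree} := by
  let _ := compatibleRingOfRing ℂ[X]
  obtain ⟨φ, hφ⟩ := def_eqDeg (M := ℂ[X]) (DT.var (0 : Fin 2)) (DT.var (1 : Fin 2))
  rw [Set.empty_definable_iff]
  refine ⟨φ, ?_⟩
  ext v
  have h1 : φ.Realize v ↔ EqDeg (v 0) (v 1) := hφ v
  rw [eqDeg_iff] at h1
  exact h1.symm

end Pool.Agent.Results.MP_d395f7_lc.EqualDegree
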